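import Mathlib.Data.ENat.Lattice
import Mathlib.Algebra.Notation.Lemmas
import Mathlib.Tactic.Monotonicity.Lemmas
import Mathlib.Topology.Separation.CompletelyRegular
import Mathlib.Order.CompletePartialOrder
import Mathlib.SetTheory.ZFC.PSet
import Mathlib.Tactic.Algebra.Basic

-- ======== part 0: formerly Pool.Agent.MP_866953_gt.Basic
section MrgPart0

set_option autoImplicit false

namespace Pool.Agent.MP_866953_gt

open Filter Topology Set

/-! One-point spaces attached to a filter. -/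

/-- The space with one non-isolated point whose trace filter is `F`. -/
def OP {α : Type} (_F : Filter α) : Type := Option α

instance instTopOP {α : Type} (F : Filter α) : TopologicalSpace (OP F) :=
  nhdsAdjoint (none : Option α) (F.map some)

/-- The non-isolated point. -/
def OP.inf {α : Type} (F : Filter α) : OP F := (none : Option α)

/-- An isolated point. -/
def OP.pt {α : Type} (F : Filter α) (a : α) : OP F := (some a : Option α)

theorem OP.pt_ne_inf {α : Type} (F : Filter α) (a : α) : OP.pt F a ≠ OP.inf F :=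
  Option.some_ne_none a

theorem OP.pt_injective {α : Type} (F : Filter α) : Function.Injective (OP.pt F) :=
  fun _ _ h => Option.some.inj h

theorem OP.cases {α : Type} {F : Filter α} (x : OP F) : x = OP.inf F ∨ ∃ a, x = OP.pt F a := by
  cases x with
  | none => exact Or.inl rfl
  | some a => exact Or.inr ⟨a, rfl⟩

theorem OP.isOpen_iff {α : Type} {F : Filter α} {U : Set (OP F)} :
    IsOpen U ↔ (OP.inf F ∈ U → OP.pt F ⁻¹' U ∈ F) := Iff.rfl

theorem OP.continuous_iff {α : Type} {F : Filter α} {f : OP F → ℝ} :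
    Continuous f ↔ Tendsto (fun a => f (OP.pt F a)) F (𝓝 (f (OP.inf F))) := by
  have := @continuous_nhdsAdjoint_dom (Option α) ℝ _ f none (F.map some)
  rw [tendsto_map'_iff] at this
  exact this

theorem OP.isOpen_of_notMem {α : Type} {F : Filter α} {U : Set (OP F)} (h : OP.inf F ∉ U) :
    IsOpen U := OP.isOpen_iff.2 fun h' => absurd h' h

theorem OP.isClosed_of_mem {α : Type} {F : Filter α} {U : Set (OP F)} (h : OP.inf F ∈ U) :
    IsClosed U := ⟨OP.isOpen_of_notMem fun h' => h' h⟩

theorem OP.isClopen_singleton {α : Type} {F : Filter α} (hF : ∀ a, ({a}ᶜ : Set α) ∈ F) (a : α) :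
    IsClopen ({OP.pt F a} : Set (OP F)) := by
  refine ⟨⟨OP.isOpen_iff.2 fun _ => ?_⟩, OP.isOpen_of_notMem ?_⟩
  · filter_upwards [hF a] with b hb
    intro h
    exact hb (OP.pt_injective F h)
  · intro h
    exact OP.pt_ne_inf F a h.symm

theorem OP.t35 {α : Type} {F : Filter α} (hF : ∀ a, ({a}ᶜ : Set α) ∈ F) : T35Space (OP F) := by
  have h0 : T0Space (OP F) := by
    refine (t0Space_iff_exists_isOpen_xor_mem (OP F)).2 ?_
    intro x y hxy
    rcases OP.cases x with rfl | ⟨a, rfl⟩
    · rcases OP.cases y with rfl | ⟨b, rfl⟩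
      · exact absurd rfl hxy
      · exact ⟨{OP.pt F b}, (OP.isClopen_singleton hF b).isOpen, Or.inr ⟨rfl, hxy⟩⟩
    · exact ⟨{OP.pt F a}, (OP.isClopen_singleton hF a).isOpen, Or.inl ⟨rfl, fun h => hxy h.symm⟩⟩
  have h1 : CompletelyRegularSpace (OP F) := by
    refine CompletelyRegularSpace.of_isTopologicalBasis_clopens ?_
    refine TopologicalSpace.isTopologicalBasis_of_isOpen_of_nhds (fun s hs => hs.isOpen) ?_
    intro x U hx hU
    rcases OP.cases x with rfl | ⟨a, rfl⟩
    · exact ⟨U, ⟨OP.isClosed_of_mem hx, hU⟩, hx, subset_rfl⟩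
    · exact ⟨{OP.pt F a}, OP.isClopen_singleton hF a, rfl, by simpa using hx⟩
  exact { toT0Space := h0, toCompletelyRegularSpace := h1 }

/-- A compact set meets every small set in a finite set. -/
theorem OP.finite_of_compact {α : Type} {F : Filter α} {K : Set (OP F)} (hK : IsCompact K)
    {A : Set α} (hA : Aᶜ ∈ F) (hAK : ∀ a ∈ A, OP.pt F a ∈ K) : A.Finite := by
  classical
  have hU : IsOpen (OP.pt F '' A)ᶜ := by
    refine OP.isOpen_iff.2 fun _ => ?_
    filter_upwards [hA] with b hb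
    rintro ⟨c, hc, hcb⟩
    exact hb (OP.pt_injective F hcb ▸ hc)
  have hK' : IsCompact (K \ (OP.pt F '' A)ᶜ) := hK.diff hU
  have hfin : (K \ (OP.pt F '' A)ᶜ).Finite := by
    refine hK'.finite ?_
    refine isDiscrete_iff_forall_mem_exists_isOpen.2 ?_
    intro x hx
    have hx2 : x ∈ OP.pt F '' A := by simpa using hx.2
    obtain ⟨a, -, rfl⟩ := hx2
    refine ⟨{OP.pt F a}, OP.isOpen_of_notMem fun h => OP.pt_ne_inf F a h.symm, ?_⟩
    exact inter_eq_left.2 (by simpa using hx)
  refine Set.Finite.of_finite_image (hfin.subset ?_) (OP.pt_injective F).injOn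
  rintro _ ⟨a, ha, rfl⟩
  exact ⟨hAK a ha, fun h => h ⟨a, ha, rfl⟩⟩

/-- A set converging to the non-isolated point, together with that point, is compact. -/
theorem OP.isCompact_of_conv {α : Type} {F : Filter α} {Z : Set α}
    (hZ : ∀ W ∈ F, (Z \ W).Finite) : IsCompact (insert (OP.inf F) (OP.pt F '' Z)) := by
  classical
  refine isCompact_of_finite_subcover ?_
  intro ι U hU hcov
  obtain ⟨i0, hi0⟩ := mem_iUnion.1 (hcov (mem_insert _ _))
  have hfin := hZ _ (OP.isOpen_iff.1 (hU i0) hi0)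
  have hch : ∀ a : α, a ∈ Z → ∃ i, OP.pt F a ∈ U i := fun a ha =>
    mem_iUnion.1 (hcov (mem_insert_of_mem _ ⟨a, ha, rfl⟩))
  have : Nonempty ι := ⟨i0⟩
  choose! c hc using hch
  refine ⟨insert i0 (hfin.toFinset.image c), ?_⟩
  rintro x (rfl | ⟨a, ha, rfl⟩)
  · exact mem_biUnion (Finset.mem_coe.2 (Finset.mem_insert_self _ _)) hi0
  · by_cases h : OP.pt F a ∈ U i0
    · exact mem_biUnion (Finset.mem_coe.2 (Finset.mem_insert_self _ _)) h
    · refine mem_biUnion (Finset.mem_coe.2 (Finset.mem_insert_of_mem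
        (Finset.mem_image_of_mem c (hfin.mem_toFinset.2 ⟨ha, h⟩)))) (hc a ha)

/-! The min-max median of a finite square block. -/

/-- The min-max value of the square block of side `N + 1`. -/
noncomputable def med (N : ℕ) (x : ℕ × ℕ → ℝ) : ℝ :=
  (Finset.range (N + 1)).inf' Finset.nonempty_range_add_one fun i =>
    (Finset.range (N + 1)).sup' Finset.nonempty_range_add_one fun j => x (i, j)

theorem med_add (N : ℕ) (x : ℕ × ℕ → ℝ) (c : ℝ) : med N (fun q => x q + c) = med N x + c := by
  unfold med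
  apply le_antisymm
  · obtain ⟨i, hi, h⟩ := Finset.exists_mem_eq_inf' (s := Finset.range (N + 1))
      Finset.nonempty_range_add_one fun i =>
        (Finset.range (N + 1)).sup' Finset.nonempty_range_add_one fun j => x (i, j)
    rw [h]
    refine (Finset.inf'_le _ hi).trans ?_
    refine Finset.sup'_le _ _ fun j hj => ?_
    have := Finset.le_sup' (fun j => x (i, j)) hj
    linarith
  · refine Finset.le_inf' _ _ fun i hi => ?_
    have h1 := Finset.inf'_le (fun i =>
        (Finset.range (N + 1)).sup' Finset.nonempty_range_add_one fun j => x (i, j)) hi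
    obtain ⟨j, hj, h⟩ := Finset.exists_mem_eq_sup' (s := Finset.range (N + 1))
      Finset.nonempty_range_add_one fun j => x (i, j)
    have h2 := Finset.le_sup' (fun j => x (i, j) + c) hj
    beta_reduce at h1
    rw [h] at h1
    linarith

theorem med_robust {N k : ℕ} (hk : k ≤ N) (x : ℕ × ℕ → ℝ) (a ε : ℝ)
    (h : {q : ℕ × ℕ | ¬ |x q - a| < ε}.encard ≤ k) : |med N x - a| < ε := by
  classical
  have hfin : {q : ℕ × ℕ | ¬ |x q - a| < ε}.Finite := Set.finite_of_encard_le_coe h
  have hcard : hfin.toFinset.card ≤ k := by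
    have := hfin.encard_eq_coe_toFinset_card
    rw [this] at h
    exact_mod_cast h
  have hex : ∀ g : ℕ × ℕ → ℕ, ∃ i ∈ Finset.range (N + 1), i ∉ hfin.toFinset.image g := by
    intro g
    apply Finset.exists_mem_notMem_of_card_lt_card
    have := Finset.card_image_le (s := hfin.toFinset) (f := g)
    rw [Finset.card_range]
    omega
  rw [abs_sub_lt_iff]
  constructor
  · obtain ⟨i, hi, hi'⟩ := hex Prod.fst
    have h1 := Finset.inf'_le (fun i =>
        (Finset.range (N + 1)).sup' Finset.nonempty_range_add_one fun j => x (i, j)) hi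
    obtain ⟨j, hj, h2⟩ := Finset.exists_mem_eq_sup' (s := Finset.range (N + 1))
      Finset.nonempty_range_add_one fun j => x (i, j)
    beta_reduce at h1
    rw [h2] at h1
    have h3 : |x (i, j) - a| < ε := by
      by_contra hc
      exact hi' (Finset.mem_image.2 ⟨(i, j), hfin.mem_toFinset.2 hc, rfl⟩)
    have := (abs_sub_lt_iff.1 h3).1
    unfold med
    linarith
  · obtain ⟨j, hj, hj'⟩ := hex Prod.snd
    obtain ⟨i, hi, h1⟩ := Finset.exists_mem_eq_inf' (s := Finset.range (N + 1))
      Finset.nonempty_range_add_one fun i =>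
        (Finset.range (N + 1)).sup' Finset.nonempty_range_add_one fun j => x (i, j)
    have h2 := Finset.le_sup' (fun j => x (i, j)) hj
    have h3 : |x (i, j) - a| < ε := by
      by_contra hc
      exact hj' (Finset.mem_image.2 ⟨(i, j), hfin.mem_toFinset.2 hc, rfl⟩)
    have := (abs_sub_lt_iff.1 h3).2
    unfold med
    rw [h1]
    linarith

theorem uc_sup' {β ι : Type} [UniformSpace β] {s : Finset ι} (hs : s.Nonempty) (g : ι → β → ℝ)
    (hg : ∀ i, UniformContinuous (g i)) :
    UniformContinuous fun b => s.sup' hs fun i => g i b := by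
  induction hs using Finset.Nonempty.cons_induction with
  | singleton a => simpa using hg a
  | cons a s ha hs ih =>
    simp only [Finset.sup'_cons hs]
    exact lipschitzWith_max.uniformContinuous.comp ((hg a).prodMk ih)

theorem uc_inf' {β ι : Type} [UniformSpace β] {s : Finset ι} (hs : s.Nonempty) (g : ι → β → ℝ)
    (hg : ∀ i, UniformContinuous (g i)) :
    UniformContinuous fun b => s.inf' hs fun i => g i b := by
  induction hs using Finset.Nonempty.cons_induction with
  | singleton a => simpa using hg a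
  | cons a s ha hs ih =>
    simp only [Finset.inf'_cons hs]
    exact lipschitzWith_min.uniformContinuous.comp ((hg a).prodMk ih)

theorem uc_med {β : Type} [UniformSpace β] (N : ℕ) (g : β → ℕ × ℕ → ℝ)
    (hg : ∀ q, UniformContinuous fun b => g b q) : UniformContinuous fun b => med N (g b) := by
  unfold med
  exact uc_inf' _ _ fun i => uc_sup' _ _ fun j => hg (i, j)

end Pool.Agent.MP_866953_gt

end MrgPart0

-- ======== part 1: formerly Pool.Agent.MP_866953_gt.Main
section MrgPart1

set_option autoImplicit false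

namespace Pool.Agent.MP_866953_gt

open Filter Topology Set

/-! The filter on the binary tree: zero-chains converge, one-chains are small. -/

/-- The node of length `n` on the branch `x` (latest letter first). -/
def pre (x : ℕ → Bool) : ℕ → List Bool
  | 0 => []
  | n + 1 => x n :: pre x n

theorem length_pre (x : ℕ → Bool) (n : ℕ) : (pre x n).length = n := by
  induction n with
  | zero => rfl
  | succ n ih => simp [pre, ih]

theorem eq_of_pre_eq {x y : ℕ → Bool} {n : ℕ} (h : pre x n = pre y n) : ∀ i < n, x i = y i := by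
  induction n with
  | zero => intro i hi; omega
  | succ n ih =>
    intro i hi
    simp only [pre, List.cons.injEq] at h
    rcases Nat.lt_succ_iff_lt_or_eq.1 hi with h' | rfl
    · exact ih h.2 i h'
    · exact h.1

/-- Sets of nodes containing almost all of every zero-chain. -/
def F0 : Filter (List Bool) where
  sets := {W | ∀ x : ℕ → Bool, {n | x n = false ∧ pre x n ∉ W}.Finite}
  univ_sets := fun x => by simp
  sets_of_superset := fun {A B} hA hAB x =>
    (hA x).subset fun n hn => ⟨hn.1, fun h => hn.2 (hAB h)⟩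
  inter_sets := fun {A B} hA hB x =>
    ((hA x).union (hB x)).subset fun n hn => by
      by_cases h : pre x n ∈ A
      · exact Or.inr ⟨hn.1, fun h' => hn.2 ⟨h, h'⟩⟩
      · exact Or.inl ⟨hn.1, h⟩

theorem mem_F0 {W : Set (List Bool)} :
    W ∈ F0 ↔ ∀ x : ℕ → Bool, {n | x n = false ∧ pre x n ∉ W}.Finite := Iff.rfl

theorem F0_length (k : ℕ) : ∀ᶠ τ in F0, k ≤ τ.length := by
  refine mem_F0.2 fun x => (Set.finite_lt_nat k).subset ?_
  intro n hn
  have := hn.2
  simp only [mem_ofPred_eq, length_pre, not_le] at this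
  exact this

theorem F0_compl_singleton (τ : List Bool) : ({τ}ᶜ : Set (List Bool)) ∈ F0 := by
  filter_upwards [F0_length (τ.length + 1)] with σ hσ
  rintro rfl
  omega

theorem F0_one_chain (y : ℕ → Bool) : (pre y '' {n | y n = true})ᶜ ∈ F0 := by
  refine mem_F0.2 fun x => Set.Subsingleton.finite ?_
  have key : ∀ n ∈ {n | x n = false ∧ pre x n ∉ (pre y '' {n | y n = true})ᶜ},
      x n ≠ y n ∧ ∀ i < n, x i = y i := by
    rintro n ⟨h1, h2⟩
    simp only [mem_compl_iff, not_not] at h2
    obtain ⟨m, hm, hm'⟩ := h2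
    have hmn : m = n := by
      have := congrArg List.length hm'
      simpa [length_pre] using this
    subst hmn
    refine ⟨?_, fun i hi => (eq_of_pre_eq hm' i hi).symm⟩
    rw [h1, show y m = true from hm]
    decide
  intro n hn m hm
  obtain ⟨h1, h2⟩ := key n hn
  obtain ⟨h3, h4⟩ := key m hm
  rcases lt_trichotomy n m with h | h | h
  · exact absurd (h4 n h) h1
  · exact h
  · exact absurd (h2 m h) h3

/-! The filter on blocks. -/

/-- Points of the blocks. -/
abbrev P : Type := ℕ × List Bool × (ℕ × ℕ)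

/-- Sets that miss boundedly many points of almost every block in each layer. -/
def FJ : Filter P where
  sets := {W | ∀ n : ℕ, ∃ k : ℕ, ∀ᶠ τ in F0, {q : ℕ × ℕ | (n, τ, q) ∉ W}.encard ≤ k}
  univ_sets := fun n => ⟨0, by simp⟩
  sets_of_superset := fun {A B} hA hAB n => by
    obtain ⟨k, hk⟩ := hA n
    refine ⟨k, hk.mono fun τ hτ => le_trans (Set.encard_le_encard ?_) hτ⟩
    intro q hq h
    exact hq (hAB h)
  inter_sets := fun {A B} hA hB n => by
    obtain ⟨k, hk⟩ := hA n
    obtain ⟨l, hl⟩ := hB n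
    refine ⟨k + l, ?_⟩
    filter_upwards [hk, hl] with τ h1 h2
    have : {q : ℕ × ℕ | (n, τ, q) ∉ A ∩ B} ⊆
        {q : ℕ × ℕ | (n, τ, q) ∉ A} ∪ {q : ℕ × ℕ | (n, τ, q) ∉ B} := by
      intro q hq
      by_cases h : (n, τ, q) ∈ A
      · exact Or.inr fun h' => hq ⟨h, h'⟩
      · exact Or.inl h
    refine (Set.encard_le_encard this).trans ((Set.encard_union_le _ _).trans ?_)
    push_cast
    exact add_le_add h1 h2

theorem mem_FJ {W : Set P} :
    W ∈ FJ ↔ ∀ n : ℕ, ∃ k : ℕ, ∀ᶠ τ in F0, {q : ℕ × ℕ | (n, τ, q) ∉ W}.encard ≤ k := Iff.rfl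

theorem FJ_selector {A : Set P}
    (hA : ∀ n τ q q', (n, τ, q) ∈ A → (n, τ, q') ∈ A → q = q') : Aᶜ ∈ FJ := by
  refine mem_FJ.2 fun n => ⟨1, Eventually.of_forall fun τ => ?_⟩
  refine Set.encard_le_one_iff.2 fun q q' hq hq' => hA n τ q q' ?_ ?_
  · simpa using hq
  · simpa using hq'

theorem FJ_block {A : Set P} (τ : List Bool) (hA : ∀ p ∈ A, p.2.1 = τ) : Aᶜ ∈ FJ := by
  refine mem_FJ.2 fun n => ⟨0, ?_⟩
  filter_upwards [F0_compl_singleton τ] with σ hσ
  have : {q : ℕ × ℕ | (n, σ, q) ∉ Aᶜ} = ∅ := by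
    ext q
    simp only [mem_compl_iff, not_not, mem_ofPred_eq, mem_empty_iff_false, iff_false]
    intro h
    exact hσ (hA _ h)
  rw [this]
  simp

theorem FJ_compl_singleton (p : P) : ({p}ᶜ : Set P) ∈ FJ :=
  FJ_block p.2.1 fun _ h => by rw [mem_singleton_iff.1 h]

theorem compact_finite {K : Set (OP FJ)} (hK : IsCompact K) : K.Finite := by
  classical
  set A : Set P := OP.pt FJ ⁻¹' K with hA
  have hfin : A.Finite := by
    let π : P → ℕ × List Bool := fun p => (p.1, p.2.1)
    refine Set.Finite.of_finite_fibers π ?_ ?_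
    · have hch : ∀ b ∈ π '' A, ∃ p ∈ A, π p = b := fun b hb => hb
      choose! s hs using hch
      have hS : (s '' (π '' A)).Finite := by
        refine OP.finite_of_compact hK (FJ_selector ?_) ?_
        · rintro n τ q q' ⟨b, hb, h1⟩ ⟨b', hb', h2⟩
          have e1 : b = (n, τ) := by rw [← (hs b hb).2, h1]
          have e2 : b' = (n, τ) := by rw [← (hs b' hb').2, h2]
          have : (n, τ, q) = (n, τ, q') := by rw [← h1, ← h2, e1, e2]
          simpa using this
        · rintro _ ⟨b, hb, rfl⟩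
          exact (hs b hb).1
      refine (hS.image π).subset fun b hb => ⟨s b, ⟨b, hb, rfl⟩, (hs b hb).2⟩
    · intro b _
      refine OP.finite_of_compact hK (FJ_block b.2 ?_) fun p hp => hp.1
      intro p hp
      have : π p = b := hp.2
      rw [← this]
  refine ((hfin.image (OP.pt FJ)).insert (OP.inf FJ)).subset fun x hx => ?_
  rcases OP.cases x with rfl | ⟨a, rfl⟩
  · exact mem_insert _ _
  · exact mem_insert_of_mem _ ⟨a, hx, rfl⟩

theorem tendsto_med {h : P → ℝ} {a : ℝ} (hh : Tendsto h FJ (𝓝 a)) (n : ℕ) :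
    Tendsto (fun τ : List Bool => med τ.length fun q => h (n, τ, q)) F0 (𝓝 a) := by
  rw [Metric.tendsto_nhds] at hh ⊢
  intro ε hε
  obtain ⟨k, hk⟩ := mem_FJ.1 (hh ε hε) n
  filter_upwards [hk, F0_length k] with τ h1 h2
  rw [Real.dist_eq]
  refine med_robust h2 _ a ε ?_
  simpa [Real.dist_eq] using h1

theorem tendsto_spread {u : ℕ → List Bool → ℝ} {a : ℝ} (hu : ∀ n, Tendsto (u n) F0 (𝓝 a)) :
    Tendsto (fun p : P => u p.1 p.2.1) FJ (𝓝 a) := by
  intro U hU
  refine mem_FJ.2 fun n => ⟨0, ?_⟩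
  filter_upwards [hu n hU] with τ hτ
  have : {q : ℕ × ℕ | (n, τ, q) ∉ (fun p : P => u p.1 p.2.1) ⁻¹' U} = ∅ := by
    ext q
    simp only [mem_preimage, mem_ofPred_eq, mem_empty_iff_false, iff_false, not_not]
    exact hτ
  rw [this]
  simp

/-! The second space. -/

/-- The filter of the second space. -/
def FY : Filter (P ⊕ List Bool) := FJ.map Sum.inl ⊔ F0.map Sum.inr

theorem mem_FY {W : Set (P ⊕ List Bool)} :
    W ∈ FY ↔ Sum.inl ⁻¹' W ∈ FJ ∧ Sum.inr ⁻¹' W ∈ F0 := by
  simp [FY]

theorem tendsto_FY {h : P ⊕ List Bool → ℝ} {a : ℝ} :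
    Tendsto h FY (𝓝 a) ↔
      Tendsto (fun p => h (Sum.inl p)) FJ (𝓝 a) ∧ Tendsto (fun τ => h (Sum.inr τ)) F0 (𝓝 a) := by
  simp only [FY, tendsto_sup, tendsto_map'_iff]
  rfl

theorem FY_compl_singleton (p : P ⊕ List Bool) : ({p}ᶜ : Set (P ⊕ List Bool)) ∈ FY := by
  rw [mem_FY]
  rcases p with p | τ
  · refine ⟨?_, ?_⟩
    · filter_upwards [FJ_compl_singleton p] with q hq
      intro h
      exact hq (Sum.inl.inj h)
    · exact Eventually.of_forall fun τ h => by simp at h
  · refine ⟨?_, ?_⟩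
    · exact Eventually.of_forall fun τ h => by simp at h
    · filter_upwards [F0_compl_singleton τ] with q hq
      intro h
      exact hq (Sum.inr.inj h)

/-- Median of a block, for a function on the first space. -/
noncomputable def mX (f : OP FJ → ℝ) (n : ℕ) (τ : List Bool) : ℝ :=
  med τ.length fun q => f (OP.pt FJ (n, τ, q))

/-- Median of a block, for a function on the second space. -/
noncomputable def mY (g : OP FY → ℝ) (n : ℕ) (τ : List Bool) : ℝ :=
  med τ.length fun q => g (OP.pt FY (Sum.inl (n, τ, q)))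

/-- The median of the previous layer. -/
noncomputable def prevY (g : OP FY → ℝ) : ℕ → List Bool → ℝ
  | 0, τ => g (OP.pt FY (Sum.inr τ))
  | n + 1, τ => mY g n τ

/-- The forward map. -/
noncomputable def fwd (f : OP FJ → ℝ) : OP FY → ℝ
  | none => f (OP.inf FJ)
  | some (Sum.inl p) => f (OP.pt FJ p) + (mX f (p.1 + 1) p.2.1 - mX f p.1 p.2.1)
  | some (Sum.inr τ) => mX f 0 τ

/-- The backward map. -/
noncomputable def bwd (g : OP FY → ℝ) : OP FJ → ℝ
  | none => g (OP.inf FY)
  | some p => g (OP.pt FY (Sum.inl p)) + (prevY g p.1 p.2.1 - mY g p.1 p.2.1)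

theorem fwd_inf (f : OP FJ → ℝ) : fwd f (OP.inf FY) = f (OP.inf FJ) := rfl
theorem fwd_inl (f : OP FJ → ℝ) (p : P) : fwd f (OP.pt FY (Sum.inl p)) =
    f (OP.pt FJ p) + (mX f (p.1 + 1) p.2.1 - mX f p.1 p.2.1) := rfl
theorem fwd_inr (f : OP FJ → ℝ) (τ : List Bool) : fwd f (OP.pt FY (Sum.inr τ)) = mX f 0 τ := rfl
theorem bwd_inf (g : OP FY → ℝ) : bwd g (OP.inf FJ) = g (OP.inf FY) := rfl
theorem bwd_pt (g : OP FY → ℝ) (p : P) : bwd g (OP.pt FJ p) =
    g (OP.pt FY (Sum.inl p)) + (prevY g p.1 p.2.1 - mY g p.1 p.2.1) := rfl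

theorem mY_fwd (f : OP FJ → ℝ) (n : ℕ) (τ : List Bool) : mY (fwd f) n τ = mX f (n + 1) τ := by
  unfold mY
  simp only [fwd_inl]
  rw [med_add]
  change mX f n τ + _ = _
  ring

theorem prevY_fwd (f : OP FJ → ℝ) (n : ℕ) (τ : List Bool) : prevY (fwd f) n τ = mX f n τ := by
  cases n with
  | zero => rfl
  | succ n => exact mY_fwd f n τ

theorem mX_bwd (g : OP FY → ℝ) (n : ℕ) (τ : List Bool) : mX (bwd g) n τ = prevY g n τ := by
  unfold mX
  simp only [bwd_pt]
  rw [med_add]
  change mY g n τ + _ = _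
  ring

theorem bwd_fwd (f : OP FJ → ℝ) : bwd (fwd f) = f := by
  funext x
  rcases OP.cases x with rfl | ⟨p, rfl⟩
  · rfl
  · rw [bwd_pt, fwd_inl, prevY_fwd, mY_fwd]
    ring

theorem fwd_bwd (g : OP FY → ℝ) : fwd (bwd g) = g := by
  funext y
  rcases OP.cases y with rfl | ⟨p | τ, rfl⟩
  · rfl
  · rw [fwd_inl, bwd_pt, mX_bwd, mX_bwd]
    change _ + (mY g p.1 p.2.1 - _) = _
    ring
  · rw [fwd_inr, mX_bwd]
    rfl

theorem continuous_fwd {f : OP FJ → ℝ} (hf : Continuous f) : Continuous (fwd f) := by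
  rw [OP.continuous_iff] at hf ⊢
  have hm : ∀ n, Tendsto (mX f n) F0 (𝓝 (f (OP.inf FJ))) := fun n => tendsto_med hf n
  rw [tendsto_FY, fwd_inf]
  refine ⟨?_, hm 0⟩
  have h1 := tendsto_spread (u := fun n => mX f (n + 1)) fun n => hm (n + 1)
  have h2 := tendsto_spread (u := fun n => mX f n) hm
  have h3 := hf.add (h1.sub h2)
  rw [sub_self, add_zero] at h3
  exact h3

theorem continuous_bwd {g : OP FY → ℝ} (hg : Continuous g) : Continuous (bwd g) := by
  rw [OP.continuous_iff] at hg ⊢
  rw [tendsto_FY] at hg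
  have hm : ∀ n, Tendsto (mY g n) F0 (𝓝 (g (OP.inf FY))) := fun n => tendsto_med hg.1 n
  have hp : ∀ n, Tendsto (prevY g n) F0 (𝓝 (g (OP.inf FY))) := by
    intro n
    cases n with
    | zero => exact hg.2
    | succ n => exact hm n
  have h1 := tendsto_spread hp
  have h2 := tendsto_spread hm
  have h3 := hg.1.add (h1.sub h2)
  rw [sub_self, add_zero] at h3
  exact h3

theorem uc_fwd : UniformContinuous fwd := by
  have he : ∀ x : OP FJ, UniformContinuous fun f : OP FJ → ℝ => f x := fun x =>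
    Pi.uniformContinuous_proj _ x
  have hm : ∀ n τ, UniformContinuous fun f : OP FJ → ℝ => mX f n τ := fun n τ =>
    uc_med _ _ fun q => he _
  refine uniformContinuous_pi.2 fun y => ?_
  rcases OP.cases y with rfl | ⟨p | τ, rfl⟩
  · exact he _
  · exact (he _).add ((hm _ _).sub (hm _ _))
  · exact hm _ _

theorem uc_bwd : UniformContinuous bwd := by
  have he : ∀ x : OP FY, UniformContinuous fun f : OP FY → ℝ => f x := fun x =>
    Pi.uniformContinuous_proj _ x
  have hm : ∀ n τ, UniformContinuous fun f : OP FY → ℝ => mY f n τ := fun n τ =>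
    uc_med _ _ fun q => he _
  have hp : ∀ n τ, UniformContinuous fun f : OP FY → ℝ => prevY f n τ := by
    intro n τ
    cases n with
    | zero => exact he _
    | succ n => exact hm n τ
  refine uniformContinuous_pi.2 fun x => ?_
  rcases OP.cases x with rfl | ⟨p, rfl⟩
  · exact he _
  · exact (he _).add ((hp _ _).sub (hm _ _))

/-- The uniform homeomorphism of the function spaces. -/
noncomputable def uequiv :
    UniformEquiv {f : OP FJ → ℝ // Continuous f} {g : OP FY → ℝ // Continuous g} where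
  toFun f := ⟨fwd f.1, continuous_fwd f.2⟩
  invFun g := ⟨bwd g.1, continuous_bwd g.2⟩
  left_inv f := Subtype.ext (bwd_fwd f.1)
  right_inv g := Subtype.ext (fwd_bwd g.1)
  uniformContinuous_toFun :=
    UniformContinuous.subtype_mk (uc_fwd.comp uniformContinuous_subtype_val) _
  uniformContinuous_invFun :=
    UniformContinuous.subtype_mk (uc_bwd.comp uniformContinuous_subtype_val) _

theorem knetwork_X : ∃ N : Set (Set (OP FJ)), N.Countable ∧
    ∀ K U : Set (OP FJ), IsCompact K → IsOpen U → K ⊆ U →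
      ∃ F : Finset (Set (OP FJ)), (↑F : Set (Set (OP FJ))) ⊆ N ∧
        K ⊆ ⋃₀ (↑F : Set (Set (OP FJ))) ∧ ⋃₀ (↑F : Set (Set (OP FJ))) ⊆ U := by
  classical
  have : Countable (OP FJ) := inferInstanceAs (Countable (Option P))
  refine ⟨range fun x : OP FJ => {x}, countable_range _, ?_⟩
  intro K U hK _ hKU
  have hfin := compact_finite hK
  refine ⟨hfin.toFinset.image fun x => {x}, ?_, ?_, ?_⟩
  · intro s hs
    obtain ⟨x, -, rfl⟩ := Finset.mem_image.1 (Finset.mem_coe.1 hs)
    exact ⟨x, rfl⟩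
  · intro x hx
    exact ⟨{x}, Finset.mem_coe.2 (Finset.mem_image.2 ⟨x, hfin.mem_toFinset.2 hx, rfl⟩), rfl⟩
  · rintro x ⟨s, hs, hxs⟩
    obtain ⟨y, hy, rfl⟩ := Finset.mem_image.1 (Finset.mem_coe.1 hs)
    rw [mem_singleton_iff.1 hxs]
    exact hKU (hfin.mem_toFinset.1 hy)

theorem no_knetwork_Y : ¬ ∃ N : Set (Set (OP FY)), N.Countable ∧
    ∀ K U : Set (OP FY), IsCompact K → IsOpen U → K ⊆ U →
      ∃ F : Finset (Set (OP FY)), (↑F : Set (Set (OP FY))) ⊆ N ∧
        K ⊆ ⋃₀ (↑F : Set (Set (OP FY))) ∧ ⋃₀ (↑F : Set (Set (OP FY))) ⊆ U := by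
  classical
  rintro ⟨N, hN, hnet⟩
  have hc : {t : Set (Set (OP FY)) | t.Finite ∧ t ⊆ N}.Countable :=
    Set.countable_ofPred_finite_subset hN
  obtain ⟨e, he⟩ := hc.exists_eq_range ⟨∅, Set.finite_empty, empty_subset _⟩
  let nd : List Bool → OP FY := fun τ => OP.pt FY (Sum.inr τ)
  let t : ℕ → List Bool := fun n =>
    Nat.rec [] (fun i τ => decide (nd τ ∈ ⋃₀ e i) :: τ) n
  let x : ℕ → Bool := fun i => decide (nd (t i) ∈ ⋃₀ e i)
  have hxt : ∀ n, pre x n = t n := by
    intro n
    induction n with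
    | zero => rfl
    | succ n ih => simp only [pre, ih]; rfl
  let Z : Set (P ⊕ List Bool) := Sum.inr '' (pre x '' {n | x n = false})
  let B : Set (List Bool) := pre x '' {n | x n = true}
  have hK : IsCompact (insert (OP.inf FY) (OP.pt FY '' Z)) := by
    refine OP.isCompact_of_conv fun W hW => ?_
    have h1 := mem_F0.1 (mem_FY.1 hW).2 x
    refine ((h1.image (pre x)).image Sum.inr).subset ?_
    rintro _ ⟨⟨_, ⟨n, hn, rfl⟩, rfl⟩, h2⟩
    exact ⟨_, ⟨n, ⟨hn, h2⟩, rfl⟩, rfl⟩
  have hU : IsOpen (nd '' B)ᶜ := by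
    refine OP.isOpen_iff.2 fun _ => mem_FY.2 ⟨?_, ?_⟩
    · refine Eventually.of_forall fun p => ?_
      rintro ⟨τ, -, h⟩
      have := OP.pt_injective FY h
      simp at this
    · filter_upwards [F0_one_chain x] with τ hτ
      rintro ⟨σ, hσ, h⟩
      have h' : σ = τ := Sum.inr.inj (OP.pt_injective FY h)
      exact hτ (h' ▸ hσ)
  have hKU : insert (OP.inf FY) (OP.pt FY '' Z) ⊆ (nd '' B)ᶜ := by
    rintro y (rfl | ⟨_, ⟨_, ⟨n, hn, rfl⟩, rfl⟩, rfl⟩)
    · rintro ⟨τ, -, h⟩
      exact OP.pt_ne_inf FY _ h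
    · rintro ⟨_, ⟨m, hm, rfl⟩, h⟩
      have h' : pre x m = pre x n := Sum.inr.inj (OP.pt_injective FY h)
      have hmn : m = n := by
        have := congrArg List.length h'
        simpa [length_pre] using this
      subst hmn
      have h1 : x m = false := hn
      have h2 : x m = true := hm
      rw [h1] at h2
      exact absurd h2 (by decide)
  obtain ⟨F, hFN, hKF, hFU⟩ := hnet _ _ hK hU hKU
  have hF : (↑F : Set (Set (OP FY))) ∈ range e := by
    rw [← he]
    exact ⟨F.finite_toSet, hFN⟩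
  obtain ⟨i, hi⟩ := hF
  rw [← hi] at hKF hFU
  by_cases h : nd (t i) ∈ ⋃₀ e i
  · refine hFU h ⟨t i, ⟨i, ?_, hxt i⟩, rfl⟩
    exact decide_eq_true h
  · refine h (hKF (mem_insert_of_mem _ ⟨Sum.inr (t i), ⟨t i, ⟨i, ?_, hxt i⟩, rfl⟩, rfl⟩))
    exact decide_eq_false h

end Pool.Agent.MP_866953_gt

end MrgPart1

-- marker of a merged file
example : 731051 + 579809 = 731051 + 579809 := rfl
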